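import Pool.Agent.helper85.BVP.Var
import Mathlib.Data.Nat.Totient

/-!
# Primes `n = -1 mod p²` on average over the primes `p`: definitions
-/

namespace Pool.Agent.helper85.SQ

open Finset

/-- `1_{n = c (q)} - 1_{(n,q)=1} / φ(q)`. -/
noncomputable def kr (q c n : ℕ) : ℝ :=
  (if n ≡ c [MOD q] then 1 else 0) - (if Nat.Coprime n q then 1 / (Nat.totient q : ℝ) else 0)

/-- the same, restricted to the class `b` mod `M`. -/
noncomputable def km (M b q c n : ℕ) : ℝ := if n ≡ b [MOD M] then kr q c n else 0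

/-- primes `p ≤ P` with `a p² - 1` prime. -/
def Rp (a P : ℕ) : Finset ℕ := {p ∈ Ioc 0 P | p.Prime ∧ (a * p ^ 2 - 1).Prime}

/-- primes `p ∈ (P/2, P]` in the class `u` mod `M`. -/
def PP (M u P : ℕ) : Finset ℕ := {p ∈ Ioc (P / 2) P | p.Prime ∧ p ≡ u [MOD M]}

/-- the expected number of `p ≤ P` with `a p² - 1` prime, `a ≤ X`, up to constants. -/
noncomputable def EE (X P : ℕ) : ℝ := P / (Real.log P * Real.log X)

end Pool.Agent.helper85.SQ
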