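import Pool.Agent.helper85.BVP.BV
import Pool.Agent.helper85.SQ.Defs
import Pool.Agent.helper61.SQ.HY

/-!
# Abstract mean value theorem for primes (Vaughan's identity, hyperbola by bisection)
-/

namespace Pool.Agent.helper85.SQ

open Finset Real ArithmeticFunction Pool.Agent.helper85.BVP

section
variable (κ : ℕ → ℝ) (T : ℝ)

/-- type I terms. -/
lemma t1_a (hone : ∀ n, |κ n| ≤ 1) (x U : ℕ) :
    |∑ n ∈ Ioc 0 x, trunc vonMangoldt U n * κ n| ≤ U * (1 + Real.log x) := by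
  have hlog := Real.log_natCast_nonneg x
  refine (abs_sum_le_sum_abs _ _).trans ?_
  have h1 : ∀ n ∈ Ioc 0 x, |trunc vonMangoldt U n * κ n|
      ≤ if n ≤ U then 1 + Real.log x else 0 := by
    intro n hn
    rw [mem_Ioc] at hn
    rw [trunc_apply]
    split_ifs with h
    · rw [abs_mul, abs_of_nonneg vonMangoldt_nonneg]
      calc vonMangoldt n * |κ n| ≤ Real.log n * 1 :=
            mul_le_mul vonMangoldt_le_log (hone n) (abs_nonneg _)
              (Real.log_natCast_nonneg n)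
        _ ≤ _ := by have := log_nat_le hn.2; linarith
    · simp
  refine (sum_le_sum h1).trans ?_
  rw [← sum_filter, sum_const, nsmul_eq_mul]
  refine mul_le_mul_of_nonneg_right ?_ (by linarith)
  have : (Ioc 0 x).filter (fun n => n ≤ U) ⊆ Ioc 0 U := by
    intro n hn
    rw [mem_filter, mem_Ioc] at hn
    rw [mem_Ioc]
    exact ⟨hn.1.1, hn.2⟩
  have h2 := card_le_card this
  rw [Nat.card_Ioc, Nat.sub_zero] at h2
  exact_mod_cast h2

lemma t1_b (hT0 : 0 ≤ T) (hT : ∀ d y : ℕ, |∑ k ∈ Ioc 0 y, κ (d * k)| ≤ T) (x U : ℕ) :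
    |∑ n ∈ Ioc 0 x, (trunc Mr U * ArithmeticFunction.log) n * κ n|
      ≤ U * (1 * (2 * T * (1 + Real.log x))) := by
  have hlog := Real.log_natCast_nonneg x
  rw [conv_sum]
  refine trunc_sum_le Mr 1 zero_le_one x U (fun n _ => abs_Mr_le n) _ _ (by positivity) ?_
  intro a ha
  have h1 := abel_bound (fun n : ℕ => Real.log n) (fun k => κ (a * k)) log_mono
    (by simp) T (fun y => hT a y) (x / a)
  have h2 := log_nat_le (Nat.div_le_self x a)
  simp only [log_apply]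
  refine h1.trans ?_
  refine mul_le_mul_of_nonneg_left ?_ (by linarith)
  linarith

lemma t1_c (hT0 : 0 ≤ T) (hT : ∀ d y : ℕ, |∑ k ∈ Ioc 0 y, κ (d * k)| ≤ T) (x U : ℕ) :
    |∑ n ∈ Ioc 0 x, (trunc Mr U * (trunc vonMangoldt U * Zr)) n * κ n|
      ≤ U * (1 * (U * ((1 + Real.log x) * T))) := by
  have hlog := Real.log_natCast_nonneg x
  rw [conv_sum]
  refine trunc_sum_le Mr 1 zero_le_one x U (fun n _ => abs_Mr_le n) _ _ (by positivity) ?_
  intro a ha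
  rw [conv_sum (trunc vonMangoldt U) Zr (fun b => κ (a * b))]
  refine trunc_sum_le vonMangoldt (1 + Real.log x) (by linarith) (x / a) U ?_ _ _ hT0 ?_
  · intro n hn
    rw [mem_Ioc] at hn
    rw [abs_of_nonneg vonMangoldt_nonneg]
    have h1 := log_nat_le (hn.2.trans (Nat.div_le_self x a))
    have h2 : vonMangoldt n ≤ Real.log n := vonMangoldt_le_log
    linarith
  · intro b _
    have h1 : ∑ k ∈ Ioc 0 (x / a / b), Zr k * κ (a * (b * k))
        = ∑ k ∈ Ioc 0 (x / a / b), κ (a * b * k) := by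
      refine sum_congr rfl fun k hk => ?_
      rw [Zr_apply k (mem_Ioc.mp hk).1.ne', one_mul, mul_assoc]
    rw [h1]
    exact hT (a * b) _

/-- Vaughan's decomposition of the prime sum. -/
lemma single (hone : ∀ n, |κ n| ≤ 1) (hT : ∀ d y : ℕ, |∑ k ∈ Ioc 0 y, κ (d * k)| ≤ T)
    (x U : ℕ) (hU : 1 ≤ U) :
    |∑ n ∈ Ioc 0 x, vonMangoldt n * κ n| ≤ (2 + 4 * T) * U ^ 2 * (1 + Real.log x)
      + |∑ a ∈ Ioc 0 x, alpha U a * ∑ b ∈ Ioc 0 (x / a), beta U b * κ (a * b)| := by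
  have hlog := Real.log_natCast_nonneg x
  have hT0 : 0 ≤ T := (abs_nonneg _).trans (hT 0 0)
  have hUr : (1 : ℝ) ≤ U := by exact_mod_cast hU
  have e : ∑ n ∈ Ioc 0 x, vonMangoldt n * κ n
      = ∑ n ∈ Ioc 0 x, trunc vonMangoldt U n * κ n
        + ∑ n ∈ Ioc 0 x, (trunc Mr U * ArithmeticFunction.log) n * κ n
        - ∑ n ∈ Ioc 0 x, (trunc Mr U * (trunc vonMangoldt U * Zr)) n * κ n
        + ∑ n ∈ Ioc 0 x, (alpha U * beta U) n * κ n := by
    rw [← sum_add_distrib, ← sum_sub_distrib, ← sum_add_distrib]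
    refine sum_congr rfl fun n _ => ?_
    have h := congrArg (fun f : ArithmeticFunction ℝ => f n) (vaughan U U)
    have h2 : (trunc vonMangoldt U + trunc Mr U * ArithmeticFunction.log
        - trunc Mr U * (trunc vonMangoldt U * Zr)
        + (vonMangoldt - trunc vonMangoldt U) * beta U : ArithmeticFunction ℝ) n
        = trunc vonMangoldt U n + (trunc Mr U * ArithmeticFunction.log : ArithmeticFunction ℝ) n
          - (trunc Mr U * (trunc vonMangoldt U * Zr) : ArithmeticFunction ℝ) n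
          + (alpha U * beta U : ArithmeticFunction ℝ) n := rfl
    rw [h, h2]
    ring
  rw [e, ← conv_sum (alpha U) (beta U)]
  have h1 := t1_a κ hone x U
  have h2 := t1_b κ T hT0 hT x U
  have h3 := t1_c κ T hT0 hT x U
  set S1 := ∑ n ∈ Ioc 0 x, trunc vonMangoldt U n * κ n
  set S2 := ∑ n ∈ Ioc 0 x, (trunc Mr U * ArithmeticFunction.log) n * κ n
  set S3 := ∑ n ∈ Ioc 0 x, (trunc Mr U * (trunc vonMangoldt U * Zr)) n * κ n
  set S4 := ∑ n ∈ Ioc 0 x, (alpha U * beta U) n * κ n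
  have h4 : |S1 + S2 - S3 + S4| ≤ |S1| + |S2| + |S3| + |S4| := by
    have a1 := abs_add_le (S1 + S2 - S3) S4
    have a2 := abs_sub (S1 + S2) S3
    have a3 := abs_add_le S1 S2
    linarith
  have h5 : (U : ℝ) * (1 + Real.log x) ≤ U ^ 2 * (1 + Real.log x) := by
    refine mul_le_mul_of_nonneg_right ?_ (by linarith)
    nlinarith
  have h6 : T * ((U : ℝ) * (1 + Real.log x)) ≤ T * (U ^ 2 * (1 + Real.log x)) :=
    mul_le_mul_of_nonneg_left h5 hT0
  have h7 : 0 ≤ (U : ℝ) ^ 2 * (1 + Real.log x) := by positivity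
  have h8 : 0 ≤ T * ((U : ℝ) ^ 2 * (1 + Real.log x)) := by positivity
  nlinarith

end

/-- dyadic blocks. -/
lemma dyadic_sum (U : ℕ) (G : ℕ → ℝ) (I : ℕ) :
    ∑ a ∈ Ioc U (U * 2 ^ I), G a
      = ∑ i ∈ range I, ∑ a ∈ Ioc (U * 2 ^ i) (2 * (U * 2 ^ i)), G a := by
  induction I with
  | zero => simp
  | succ I ih =>
    have e : U * 2 ^ (I + 1) = 2 * (U * 2 ^ I) := by ring
    rw [sum_range_succ, ← ih, e, sum_Ioc_consecutive _ (Nat.le_mul_of_pos_right U (by positivity))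
      (by omega)]

/-- one dyadic block. -/
lemma block_bound (P : Finset ℕ) (κ : ℕ → ℕ → ℝ) (A D : ℝ) (hA : 0 ≤ A) (hD : 0 ≤ D)
    (hbil : ∀ α β : ℕ → ℝ, ∀ M₁ M₂ N₁ N₂ : ℕ, M₁ ≤ M₂ → N₁ ≤ N₂ →
      ∑ p ∈ P, |∑ m ∈ Ioc M₁ M₂, ∑ n ∈ Ioc N₁ N₂, α m * β n * κ p (m * n)|
        ≤ A * √((((M₂ - M₁ : ℕ) : ℝ) + D) * (((N₂ - N₁ : ℕ) : ℝ) + D)
          * (∑ m ∈ Ioc M₁ M₂, α m ^ 2) * (∑ n ∈ Ioc N₁ N₂, β n ^ 2)))
    (x U M : ℕ) (hU : 1 ≤ U) (hx : 1 ≤ x) (hUM : U ≤ M) (hMx : M ≤ x) :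
    ∑ p ∈ P, |∑ a ∈ Ioc M (2 * M), ∑ b ∈ Ioc 0 (x / a), alpha U a * beta U b * κ p (a * b)|
      ≤ 3 * (1 + Real.log x) ^ 4 * (A * ((x : ℝ) + 2 * √D * x / √U + D * √x)) := by
  have hUr : (1 : ℝ) ≤ U := by exact_mod_cast hU
  have hx0 : (0 : ℝ) ≤ x := Nat.cast_nonneg x
  have hx1 : (1 : ℝ) ≤ x := by exact_mod_cast hx
  set L := 1 + Real.log x with hL
  have hlog := Real.log_natCast_nonneg x
  have hL1 : 1 ≤ L := by linarith
  have hU0 : (0 : ℝ) < U := by linarith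
  have hM0 : 0 < M := by omega
  set N := x / M with hN
  have hrhs : 0 ≤ 3 * L ^ 4 * (A * ((x : ℝ) + 2 * √D * x / √U + D * √x)) := by positivity
  by_cases hNU : N ≤ U
  · have : ∀ p ∈ P, |∑ a ∈ Ioc M (2 * M), ∑ b ∈ Ioc 0 (x / a), alpha U a * beta U b * κ p (a * b)| = 0 := by
      intro q _
      rw [abs_eq_zero]
      refine sum_eq_zero fun a ha => sum_eq_zero fun b hb => ?_
      rw [mem_Ioc] at ha hb
      have h1 : x / a ≤ x / M := Nat.div_le_div_left ha.1.le hM0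
      rw [beta_eq_zero U b (hb.2.trans (h1.trans hNU))]
      ring
    rw [sum_eq_zero this]
    exact hrhs
  push Not at hNU
  have hmN : M * N ≤ x := Nat.mul_div_le x M
  -- J
  set J := Nat.log 2 x + 1 with hJ
  have hJM : M ≤ 2 ^ J := hMx.trans (Nat.lt_pow_succ_log_self (by norm_num) x).le
  have hJr : ((J : ℕ) : ℝ) + 1 ≤ 3 * L := by
    have h1 : 2 ^ Nat.log 2 x ≤ x := Nat.pow_log_le_self 2 (by omega)
    have h2 : Real.log ((2 : ℝ) ^ Nat.log 2 x) ≤ Real.log x :=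
      Real.log_le_log (by positivity) (by exact_mod_cast h1)
    rw [Real.log_pow] at h2
    have h3 := Real.log_two_gt_d9
    have h4 : (0 : ℝ) ≤ Nat.log 2 x := Nat.cast_nonneg _
    have h5 : (Nat.log 2 x : ℝ) * (1 / 2) ≤ Nat.log 2 x * Real.log 2 :=
      mul_le_mul_of_nonneg_left (by linarith) h4
    rw [hJ]
    push_cast
    linarith
  refine (hyper P κ A D hA hD (fun a => alpha U a) (fun b => beta U b)
    (hbil (fun a => alpha U a) (fun b => beta U b)) x M J hM0 hJM).trans ?_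
  rw [← hN]
  have hα : ∑ a ∈ Ioc M (2 * M), alpha U a ^ 2 ≤ M * L ^ 2 := by
    have h1 : ∀ a ∈ Ioc M (2 * M), alpha U a ^ 2 ≤ L ^ 2 := by
      intro a ha
      refine pow_le_pow_left₀ (alpha_nonneg U a) ?_ 2
      refine (alpha_le_log U a).trans ?_
      have h2 := log_nat_le (((mem_Ioc.mp ha).2.trans (Nat.mul_le_mul_left 2 hMx)))
      push_cast at h2
      rw [Real.log_mul (by norm_num) (by positivity)] at h2
      have h3 := Real.log_two_lt_d9
      linarith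
    refine (sum_le_sum h1).trans (le_of_eq ?_)
    rw [sum_const, nsmul_eq_mul, Nat.card_Ioc]
    congr 2
    omega
  have hβ : ∑ b ∈ Ioc 0 N, beta U b ^ 2 ≤ N * L ^ 3 := by
    have h1 : ∀ b ∈ Ioc 0 N, beta U b ^ 2 ≤ tau b ^ 2 := by
      intro b _
      rw [← sq_abs]
      exact pow_le_pow_left₀ (abs_nonneg _) (abs_beta_le U b) 2
    refine (sum_le_sum h1).trans ((sum_tau_sq_le N).trans ?_)
    refine mul_le_mul_of_nonneg_left ?_ (Nat.cast_nonneg N)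
    have h2 := Real.log_natCast_nonneg N
    have h3 := log_nat_le (Nat.div_le_self x M)
    rw [← hN] at h3
    exact pow_le_pow_left₀ (by linarith) (by linarith) 3
  have hmr : (0 : ℝ) ≤ M := Nat.cast_nonneg M
  have hNr : (0 : ℝ) ≤ N := Nat.cast_nonneg N
  have hmNr : (M : ℝ) * N ≤ x := by exact_mod_cast hmN
  have hNx : (N : ℝ) ≤ x / U := by
    rw [le_div_iff₀ hU0]
    have : (U : ℝ) ≤ M := by exact_mod_cast hUM
    nlinarith
  have hmxU : (M : ℝ) ≤ x / U := by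
    rw [le_div_iff₀ hU0]
    have : (U : ℝ) ≤ N := by exact_mod_cast hNU.le
    nlinarith
  have h1 : ((M : ℝ) + D) * ((N : ℝ) + D) * (∑ a ∈ Ioc M (2 * M), alpha U a ^ 2)
      * (∑ b ∈ Ioc 0 N, beta U b ^ 2)
      ≤ (L ^ 3) ^ 2 * (x * (√x + √D * (2 * √x / √U) + D) ^ 2) := by
    have h2 : ((M : ℝ) + D) * ((N : ℝ) + D) ≤ (√x + √D * (2 * √x / √U) + D) ^ 2 := by
      have hsx := Real.sq_sqrt hx0
      have hsU := Real.sq_sqrt hU0.le
      have hsD := Real.sq_sqrt hD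
      have hsU0 : 0 < √(U : ℝ) := Real.sqrt_pos.mpr hU0
      have h3 : (2 * √(x : ℝ) / √U) ^ 2 = 4 * (x / U) := by
        rw [div_pow, mul_pow, hsx, hsU]
        ring
      have h5 : ((M : ℝ) + D) * (N + D) ≤ x + D * (2 * (x / U)) + D ^ 2 := by
        nlinarith
      refine h5.trans ?_
      have e : (√(x : ℝ) + √D * (2 * √x / √U) + D) ^ 2
          = √x ^ 2 + √D ^ 2 * (2 * √x / √U) ^ 2 + D ^ 2
            + 2 * (√x * (√D * (2 * √x / √U)) + √x * D + (√D * (2 * √x / √U)) * D) := by ring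
      rw [e, hsx, h3, hsD]
      have h6 : 0 ≤ √(x : ℝ) * (√D * (2 * √x / √U)) + √x * D + (√D * (2 * √x / √U)) * D := by
        positivity
      have h7 : 0 ≤ D * (x / U) := by positivity
      nlinarith
    have h8 : (∑ a ∈ Ioc M (2 * M), alpha U a ^ 2) * (∑ b ∈ Ioc 0 N, beta U b ^ 2) ≤ x * L ^ 6 := by
      calc _ ≤ (M * L ^ 2) * (N * L ^ 3) :=
            mul_le_mul hα hβ (sum_nonneg fun _ _ => sq_nonneg _) (by positivity)
        _ = (M * N) * L ^ 5 := by ring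
        _ ≤ x * L ^ 6 := by
            refine mul_le_mul hmNr (pow_le_pow_right₀ hL1 (by norm_num)) (by positivity) hx0
    calc _ = (((M : ℝ) + D) * ((N : ℝ) + D)) * ((∑ a ∈ Ioc M (2 * M), alpha U a ^ 2)
      * (∑ b ∈ Ioc 0 N, beta U b ^ 2)) := by ring
      _ ≤ (√x + √D * (2 * √x / √U) + D) ^ 2 * (x * L ^ 6) :=
          mul_le_mul h2 h8 (mul_nonneg (sum_nonneg fun _ _ => sq_nonneg _)
            (sum_nonneg fun _ _ => sq_nonneg _)) (by positivity)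
      _ = _ := by ring
  have h2 := Real.sqrt_le_sqrt h1
  have h3 : √((L ^ 3) ^ 2 * (x * (√x + √D * (2 * √x / √U) + D) ^ 2))
      = L ^ 3 * (√x * (√x + √D * (2 * √x / √U) + D)) := by
    rw [Real.sqrt_mul (by positivity), Real.sqrt_sq (by positivity), Real.sqrt_mul hx0,
      Real.sqrt_sq (by positivity)]
  rw [h3] at h2
  calc _ ≤ (3 * L) * (A * (L ^ 3 * (√x * (√x + √D * (2 * √x / √U) + D)))) := by
        refine mul_le_mul hJr (mul_le_mul_of_nonneg_left h2 hA) (by positivity) (by positivity)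
    _ = 3 * L ^ 4 * (A * ((√x * √x) + 2 * √D * (√x * √x) / √U + D * √x)) := by
        have hsU0 : 0 < √(U : ℝ) := Real.sqrt_pos.mpr hU0
        field_simp
    _ = _ := by rw [Real.mul_self_sqrt hx0]

theorem raw (P : Finset ℕ) (κ : ℕ → ℕ → ℝ) (A D T : ℝ) (hA : 0 ≤ A) (hD : 0 ≤ D)
    (hbil : ∀ α β : ℕ → ℝ, ∀ M₁ M₂ N₁ N₂ : ℕ, M₁ ≤ M₂ → N₁ ≤ N₂ →
      ∑ p ∈ P, |∑ m ∈ Ioc M₁ M₂, ∑ n ∈ Ioc N₁ N₂, α m * β n * κ p (m * n)|
        ≤ A * √((((M₂ - M₁ : ℕ) : ℝ) + D) * (((N₂ - N₁ : ℕ) : ℝ) + D)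
          * (∑ m ∈ Ioc M₁ M₂, α m ^ 2) * (∑ n ∈ Ioc N₁ N₂, β n ^ 2)))
    (hone : ∀ p ∈ P, ∀ n, |κ p n| ≤ 1)
    (hT : ∀ p ∈ P, ∀ d y : ℕ, |∑ k ∈ Ioc 0 y, κ p (d * k)| ≤ T)
    (x U : ℕ) (hU : 1 ≤ U) (hx : 1 ≤ x) :
    ∑ p ∈ P, |∑ n ∈ Ioc 0 x, vonMangoldt n * κ p n|
      ≤ #P * ((2 + 4 * T) * U ^ 2 * (1 + Real.log x))
        + 12 * (1 + Real.log x) ^ 5 * (A * ((x : ℝ) + 2 * √D * x / √U + D * √x)) := by
  have hlog := Real.log_natCast_nonneg x
  have h1 : ∀ p ∈ P, |∑ n ∈ Ioc 0 x, vonMangoldt n * κ p n|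
      ≤ (2 + 4 * T) * U ^ 2 * (1 + Real.log x)
      + |∑ a ∈ Ioc 0 x, alpha U a * ∑ b ∈ Ioc 0 (x / a), beta U b * κ p (a * b)| := by
    intro p hp
    exact single (κ p) T (hone p hp) (hT p hp) x U hU
  refine (sum_le_sum h1).trans ?_
  rw [sum_add_distrib, sum_const, nsmul_eq_mul]
  refine add_le_add le_rfl ?_
  set L := 1 + Real.log x with hL
  have hL1 : 1 ≤ L := by linarith
  set I := Nat.log 2 x + 1 with hI
  have hIx : x ≤ 2 ^ I := (Nat.lt_pow_succ_log_self (by norm_num) x).le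
  have hIr : (I : ℝ) ≤ 2 * L := by
    have h1 : 2 ^ Nat.log 2 x ≤ x := Nat.pow_log_le_self 2 (by omega)
    have h2 : Real.log ((2 : ℝ) ^ Nat.log 2 x) ≤ Real.log x :=
      Real.log_le_log (by positivity) (by exact_mod_cast h1)
    rw [Real.log_pow] at h2
    have h3 := Real.log_two_gt_d9
    have h4 : (0 : ℝ) ≤ Nat.log 2 x := Nat.cast_nonneg _
    have h5 : (Nat.log 2 x : ℝ) * (1 / 2) ≤ Nat.log 2 x * Real.log 2 :=
      mul_le_mul_of_nonneg_left (by linarith) h4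
    rw [hI]
    push_cast
    linarith
  set E := A * ((x : ℝ) + 2 * √D * x / √U + D * √x) with hE
  have hE0 : 0 ≤ E := by positivity
  have hdec : ∀ p ∈ P, |∑ a ∈ Ioc 0 x, alpha U a * ∑ b ∈ Ioc 0 (x / a), beta U b * κ p (a * b)|
      ≤ ∑ i ∈ range I, |∑ a ∈ Ioc (U * 2 ^ i) (2 * (U * 2 ^ i)), ∑ b ∈ Ioc 0 (x / a),
          alpha U a * beta U b * κ p (a * b)| := by
    intro p _
    have e1 : ∑ a ∈ Ioc 0 x, alpha U a * ∑ b ∈ Ioc 0 (x / a), beta U b * κ p (a * b)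
        = ∑ a ∈ Ioc 0 x, ∑ b ∈ Ioc 0 (x / a), alpha U a * beta U b * κ p (a * b) := by
      refine sum_congr rfl fun a _ => ?_
      rw [mul_sum]
      exact sum_congr rfl fun b _ => by ring
    rw [e1, sum_ext_Ioc _ x U (U * 2 ^ I)
      (fun a ha => sum_eq_zero fun b _ => by rw [alpha_apply, if_pos ha, zero_mul, zero_mul])
      (fun a ha => by rw [Nat.div_eq_of_lt ha, Ioc_self, sum_empty])
      (hIx.trans (Nat.le_mul_of_pos_left _ (by omega))), dyadic_sum]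
    exact abs_sum_le_sum_abs _ _
  refine (sum_le_sum hdec).trans ?_
  rw [sum_comm]
  have h2 : ∀ i ∈ range I, ∑ p ∈ P, |∑ a ∈ Ioc (U * 2 ^ i) (2 * (U * 2 ^ i)), ∑ b ∈ Ioc 0 (x / a),
          alpha U a * beta U b * κ p (a * b)| ≤ 3 * L ^ 4 * E := by
    intro i _
    by_cases hx' : U * 2 ^ i ≤ x
    · exact block_bound P κ A D hA hD hbil x U (U * 2 ^ i) hU hx
        (Nat.le_mul_of_pos_right U (by positivity)) hx'
    · push Not at hx'
      have : ∀ p ∈ P, |∑ a ∈ Ioc (U * 2 ^ i) (2 * (U * 2 ^ i)), ∑ b ∈ Ioc 0 (x / a),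
          alpha U a * beta U b * κ p (a * b)| = 0 := by
        intro p _
        rw [abs_eq_zero]
        refine sum_eq_zero fun a ha => ?_
        rw [mem_Ioc] at ha
        rw [Nat.div_eq_of_lt (by omega), Ioc_self, sum_empty]
      rw [sum_eq_zero this]
      positivity
  refine (sum_le_sum h2).trans ?_
  rw [sum_const, card_range, nsmul_eq_mul]
  calc (I : ℝ) * (3 * L ^ 4 * E) ≤ (2 * L) * (3 * L ^ 4 * E) := by gcongr
    _ = 6 * L ^ 5 * E := by ring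
    _ ≤ 12 * L ^ 5 * E := by
        have : 0 ≤ L ^ 5 * E := by positivity
        linarith

end Pool.Agent.helper85.SQ
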