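import Pool.Agent.helper85.SQ.FM
import Pool.Agent.helper96.SQ.U8
import Pool.Agent.helper87.SQ.SM

/-!
# A positive proportion of the coefficients
-/

namespace Pool.Agent.helper85.SQ

open Finset Real Filter Asymptotics

lemma EE_pos {X P : ℕ} (hX : 2 ≤ X) (hP : 2 ≤ P) : 0 < EE X P := by
  have h1 : 0 < Real.log X := Real.log_pos (by exact_mod_cast (by omega : 1 < X))
  have h2 : 0 < Real.log P := Real.log_pos (by exact_mod_cast (by omega : 1 < P))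
  have h3 : (0 : ℝ) < P := by exact_mod_cast (by omega : 0 < P)
  rw [EE]
  positivity

theorem main_lower (M : ℕ) (hM : 0 < M) : ∃ (c : ℝ) (X₀ : ℕ), 0 < c ∧
    ∀ X P : ℕ, X₀ ≤ X → X₀ ≤ P → (P : ℝ) * Real.log X ^ 12 ≤ (X : ℝ) ^ (1 / 4 : ℝ) →
      c * (min 1 (EE X P) * X)
        ≤ #{a ∈ Ioc 0 X | a ≡ 8 [MOD M] ∧ 1 ≤ #(Rp a P) ∧ c * EE X P ≤ #(Rp a P)} := by
  classical
  obtain ⟨u, _, hu, h8⟩ := exists_u M hM
  obtain ⟨c₁, X₁, hc₁, hfirst⟩ := first_moment M u hM hu h8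
  obtain ⟨C₂, D, hC₂, hsecond⟩ := second_moment
  set c := min (c₁ / 2) (c₁ ^ 2 / (8 * C₂)) with hc
  have hc0 : 0 < c := lt_min (by positivity) (by positivity)
  have hcle1 : c ≤ c₁ / 2 := min_le_left _ _
  have hcle2 : c ≤ c₁ ^ 2 / (8 * C₂) := min_le_right _ _
  refine ⟨c, max (max X₁ D) 2, hc0, ?_⟩
  intro X P hX hP hPX
  have hX₁ : X₁ ≤ X := le_trans (le_trans (le_max_left _ _) (le_max_left _ _)) hX
  have hP₁ : X₁ ≤ P := le_trans (le_trans (le_max_left _ _) (le_max_left _ _)) hP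
  have hXD : D ≤ X := le_trans (le_trans (le_max_right _ _) (le_max_left _ _)) hX
  have hPD : D ≤ P := le_trans (le_trans (le_max_right _ _) (le_max_left _ _)) hP
  have hX2 : 2 ≤ X := le_trans (le_max_right _ _) hX
  have hP2 : 2 ≤ P := le_trans (le_max_right _ _) hP
  have hXr : (0 : ℝ) < X := by exact_mod_cast (by omega : 0 < X)
  set E := EE X P with hE
  have hE0 : 0 < E := EE_pos hX2 hP2
  have h1 := hfirst X P hX₁ hP₁ hPX
  have h2 := hsecond X P hXD hPD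
  rw [← hE] at h1 h2
  set A := {a ∈ Ioc 0 X | a ≡ 8 [MOD M]} with hA
  set r : ℕ → ℝ := fun a => (#(Rp a P) : ℝ) with hr
  have hr0 : ∀ a, 0 ≤ r a := fun a => Nat.cast_nonneg _
  -- first moment
  have h3 : ∑ p ∈ PP M u P, (#{a ∈ Ioc 0 X | a ≡ 8 [MOD M] ∧ (a * p ^ 2 - 1).Prime} : ℝ)
      ≤ ∑ a ∈ A, r a := by
    have e1 : ∀ p, (#{a ∈ Ioc 0 X | a ≡ 8 [MOD M] ∧ (a * p ^ 2 - 1).Prime} : ℝ)
        = ∑ a ∈ A, if (a * p ^ 2 - 1).Prime then (1 : ℝ) else 0 := by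
      intro p
      rw [← sum_filter, sum_const, nsmul_eq_mul, mul_one, hA, filter_filter]
    rw [sum_congr rfl fun p _ => e1 p, sum_comm]
    refine sum_le_sum fun a _ => ?_
    rw [← sum_filter, sum_const, nsmul_eq_mul, mul_one, hr]
    simp only
    have : (PP M u P).filter (fun p => (a * p ^ 2 - 1).Prime) ⊆ Rp a P := by
      intro p hp
      rw [mem_filter, PP, mem_filter, mem_Ioc] at hp
      rw [Rp, mem_filter, mem_Ioc]
      exact ⟨⟨hp.1.2.1.pos, hp.1.1.2⟩, hp.1.2.1, hp.2⟩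
    exact_mod_cast card_le_card this
  have hT := h1.trans h3
  -- good set
  set G := A.filter (fun a => 1 ≤ #(Rp a P) ∧ c * E ≤ #(Rp a P)) with hG
  have hGeq : {a ∈ Ioc 0 X | a ≡ 8 [MOD M] ∧ 1 ≤ #(Rp a P) ∧ c * E ≤ #(Rp a P)} = G := by
    rw [hG, hA, filter_filter]
  rw [hGeq]
  have h4 : c₁ / 2 * (X * E) ≤ ∑ a ∈ G, r a := by
    have h5 : ∑ a ∈ A, r a = ∑ a ∈ G, r a
        + ∑ a ∈ A.filter (fun a => ¬ (1 ≤ #(Rp a P) ∧ c * E ≤ #(Rp a P))), r a :=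
      (sum_filter_add_sum_filter_not _ _ _).symm
    have h6 : ∑ a ∈ A.filter (fun a => ¬ (1 ≤ #(Rp a P) ∧ c * E ≤ #(Rp a P))), r a
        ≤ X * (c * E) := by
      have h7 : ∀ a ∈ A.filter (fun a => ¬ (1 ≤ #(Rp a P) ∧ c * E ≤ #(Rp a P))), r a ≤ c * E := by
        intro a ha
        rw [mem_filter] at ha
        by_cases h8 : 1 ≤ #(Rp a P)
        · have h9 : ¬ c * E ≤ #(Rp a P) := fun h => ha.2 ⟨h8, h⟩
          exact (not_le.mp h9).le
        · have h9 : #(Rp a P) = 0 := by omega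
          simp only [hr, h9, Nat.cast_zero]
          positivity
      refine (sum_le_sum h7).trans ?_
      rw [sum_const, nsmul_eq_mul]
      refine mul_le_mul_of_nonneg_right ?_ (by positivity)
      have h8 := (card_filter_le A (fun a => ¬ (1 ≤ #(Rp a P) ∧ c * E ≤ #(Rp a P)))).trans
        (card_filter_le (Ioc 0 X) _)
      rw [Nat.card_Ioc, Nat.sub_zero] at h8
      exact_mod_cast h8
    have h7 : (X : ℝ) * (c * E) ≤ c₁ / 2 * (X * E) := by
      have : 0 < (X : ℝ) * E := by positivity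
      nlinarith
    linarith
  have h5 : (∑ a ∈ G, r a) ^ 2 ≤ #G * ∑ a ∈ G, r a ^ 2 := sq_sum_le_card_mul_sum_sq
  have h6 : ∑ a ∈ G, r a ^ 2 ≤ C₂ * (X * (E + E ^ 2)) := by
    refine le_trans ?_ h2
    refine sum_le_sum_of_subset_of_nonneg ?_ (fun _ _ _ => sq_nonneg _)
    exact (filter_subset _ _).trans (filter_subset _ _)
  have h7 : (c₁ / 2 * (X * E)) ^ 2 ≤ #G * (C₂ * (X * (E + E ^ 2))) := by
    calc (c₁ / 2 * (X * E)) ^ 2 ≤ (∑ a ∈ G, r a) ^ 2 := pow_le_pow_left₀ (by positivity) h4 2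
      _ ≤ #G * ∑ a ∈ G, r a ^ 2 := h5
      _ ≤ _ := mul_le_mul_of_nonneg_left h6 (Nat.cast_nonneg _)
  -- conclusion
  have h8 : min 1 E * (1 + E) ≤ 2 * E := by
    rcases le_total 1 E with h | h
    · rw [min_eq_left h]; linarith
    · rw [min_eq_right h]; nlinarith
  have hm0 : 0 < min 1 E := lt_min one_pos hE0
  have h9 : c * (min 1 E * X) * (C₂ * (X * (E + E ^ 2))) ≤ #G * (C₂ * (X * (E + E ^ 2))) := by
    refine le_trans ?_ h7
    calc c * (min 1 E * X) * (C₂ * (X * (E + E ^ 2)))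
        = (c * (8 * C₂)) * ((min 1 E * (1 + E)) * (X ^ 2 * E)) / 8 := by ring
      _ ≤ (c₁ ^ 2 / (8 * C₂) * (8 * C₂)) * ((2 * E) * (X ^ 2 * E)) / 8 := by gcongr
      _ = (c₁ / 2 * (X * E)) ^ 2 := by field_simp; ring
  exact le_of_mul_le_mul_right h9 (by positivity)

/-- `log log` parameters. -/
lemma lp_params (K c' : ℝ) (hc' : 0 < c') : ∃ X₀ : ℕ, ∀ X : ℕ, X₀ ≤ X →
    K ≤ Real.log X ∧ K ≤ Real.log (Real.log X) ∧
    5 * (Real.log X * Real.log (Real.log X)) ≤ Real.log X ^ 2 ∧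
    K ≤ c' * (Real.log X * Real.log (Real.log X)) ∧
    √(Real.log X) ≤ c' / 2 * (Real.log X * Real.log (Real.log X)) ∧
    5 * (Real.log X * Real.log (Real.log X)) * Real.log X ^ 12 ≤ (X : ℝ) ^ (1 / 4 : ℝ) := by
  have hl : Tendsto (fun x : ℝ => Real.log x) atTop atTop := Real.tendsto_log_atTop
  have hll : Tendsto (fun x : ℝ => Real.log (Real.log x)) atTop atTop := hl.comp hl
  have h1 : ∀ᶠ x : ℝ in atTop, max K 1 ≤ Real.log x := hl.eventually_ge_atTop _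
  have h2 : ∀ᶠ x : ℝ in atTop, max (max K 1) (max (2 / c') (|K| / c')) ≤ Real.log (Real.log x) :=
    hll.eventually_ge_atTop _
  have h3 : ∀ᶠ x : ℝ in atTop, 5 * Real.log (Real.log x) ≤ Real.log x := by
    have h4 := (Real.isLittleO_log_id_atTop).bound (c := 1 / 5) (by positivity)
    have h5 := hl.eventually (h4.and (eventually_ge_atTop 1))
    filter_upwards [h5] with x hx
    obtain ⟨hx1, hx2⟩ := hx
    rw [id, Real.norm_of_nonneg (by linarith : (0 : ℝ) ≤ Real.log x),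
      Real.norm_of_nonneg (Real.log_nonneg hx2)] at hx1
    linarith
  have h4 : ∀ᶠ x : ℝ in atTop, Real.log x ^ 14 ≤ x ^ (1 / 4 : ℝ) := by
    have h5 := (isLittleO_log_rpow_atTop (r := 1 / 56) (by norm_num)).bound (c := 1) one_pos
    filter_upwards [h5, eventually_ge_atTop 1] with x hx hx1
    have hx0 : 0 ≤ Real.log x := Real.log_nonneg hx1
    rw [Real.norm_of_nonneg hx0, Real.norm_of_nonneg (by positivity), one_mul] at hx
    calc Real.log x ^ 14 ≤ (x ^ (1 / 56 : ℝ)) ^ 14 := by gcongr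
      _ = x ^ (1 / 4 : ℝ) := by
          rw [← Real.rpow_natCast, ← Real.rpow_mul (by linarith)]
          norm_num
  have h5 := (tendsto_natCast_atTop_atTop (R := ℝ)).eventually (h1.and (h2.and (h3.and h4)))
  obtain ⟨B₀, hB₀⟩ := eventually_atTop.mp h5
  refine ⟨B₀, fun X hX => ?_⟩
  obtain ⟨a1, a2, a3, a4⟩ := hB₀ X hX
  set l := Real.log (X : ℝ) with hl'
  set ll := Real.log l with hll'
  have hl1 : 1 ≤ l := (le_max_right _ _).trans a1
  have hlK : K ≤ l := (le_max_left _ _).trans a1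
  have hllK : K ≤ ll := (le_max_left _ _).trans ((le_max_left _ _).trans a2)
  have hll1 : 1 ≤ ll := (le_max_right _ _).trans ((le_max_left _ _).trans a2)
  have hll2 : 2 / c' ≤ ll := (le_max_left _ _).trans ((le_max_right _ _).trans a2)
  have hll3 : |K| / c' ≤ ll := (le_max_right _ _).trans ((le_max_right _ _).trans a2)
  have hl0 : 0 < l := by linarith
  have h2c : 2 ≤ c' * ll := by
    calc (2 : ℝ) = c' * (2 / c') := by field_simp
      _ ≤ _ := by gcongr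
  have hKc : |K| ≤ c' * ll := by
    calc |K| = c' * (|K| / c') := by field_simp
      _ ≤ _ := by gcongr
  refine ⟨hlK, hllK, ?_, ?_, ?_, ?_⟩
  · nlinarith
  · calc K ≤ |K| := le_abs_self K
      _ ≤ c' * ll := hKc
      _ = c' * (1 * ll) := by ring
      _ ≤ c' * (l * ll) := by gcongr
  · have : √l ≤ l := by
      rw [Real.sqrt_le_left (by linarith)]
      nlinarith
    calc √l ≤ l := this
      _ = (2 / 2) * l := by ring
      _ ≤ (c' * ll / 2) * l := by gcongr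
      _ = _ := by ring
  · calc 5 * (l * ll) * l ^ 12 ≤ l ^ 2 * l ^ 12 := by
          gcongr
          nlinarith
      _ = l ^ 14 := by ring
      _ ≤ _ := a4

theorem least_prime (M : ℕ) (hM : 0 < M) : ∃ (c C δ : ℝ) (X₀ : ℕ), 0 < c ∧ 0 < δ ∧
    ∀ X : ℕ, X₀ ≤ X → δ * X ≤ (Set.ncard {a : ℕ | 0 < a ∧ a ≤ X ∧ a ≡ 8 [MOD M] ∧
      (∃ p : ℕ, p.Prime ∧ (a * p ^ 2 - 1).Prime ∧
        (p : ℝ) ≤ C * (Real.log X * Real.log (Real.log X))) ∧
      (∀ p : ℕ, p.Prime → (a * p ^ 2 - 1).Prime →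
        c * (Real.log X * Real.log (Real.log X)) ≤ p)} : ℝ) := by
  classical
  obtain ⟨c₁, X₁, hc₁, hlow⟩ := main_lower M hM
  obtain ⟨C₂, X₂, hC₂, hup⟩ := main_upper
  set c' := c₁ / (4 * C₂) with hc'
  have hc'0 : 0 < c' := by positivity
  set K : ℝ := X₁ + X₂ + 10 with hK
  have hK10 : 10 ≤ K := by
    have : (0 : ℝ) ≤ X₁ := Nat.cast_nonneg _
    have : (0 : ℝ) ≤ X₂ := Nat.cast_nonneg _
    linarith
  have hKX₁ : (X₁ : ℝ) + 1 ≤ K := by
    have : (0 : ℝ) ≤ X₂ := Nat.cast_nonneg _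
    linarith
  have hKX₂ : (X₂ : ℝ) + 1 ≤ K := by
    have : (0 : ℝ) ≤ X₁ := Nat.cast_nonneg _
    linarith
  obtain ⟨X₃, hX₃⟩ := lp_params K c' hc'0
  refine ⟨c', 5, c₁ / 2, max (max X₁ X₂) (max X₃ 2), hc'0, by positivity, ?_⟩
  intro X hX
  have hXX₁ : X₁ ≤ X := le_trans (le_trans (le_max_left _ _) (le_max_left _ _)) hX
  have hXX₂ : X₂ ≤ X := le_trans (le_trans (le_max_right _ _) (le_max_left _ _)) hX
  have hXX₃ : X₃ ≤ X := le_trans (le_trans (le_max_left _ _) (le_max_right _ _)) hX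
  have hX2 : 2 ≤ X := le_trans (le_trans (le_max_right _ _) (le_max_right _ _)) hX
  have hXr : (0 : ℝ) < X := by exact_mod_cast (by omega : 0 < X)
  obtain ⟨a1, a2, a3, a4, a5, a6⟩ := hX₃ X hXX₃
  set l := Real.log (X : ℝ) with hl
  set ll := Real.log l with hll
  have hl0 : 0 < l := by linarith
  have hll0 : 0 < ll := by linarith
  have hlll : 100 ≤ l * ll := by nlinarith
  -- `P₁`
  set P₁ := ⌊5 * (l * ll)⌋₊ with hP₁
  have hP₁le : (P₁ : ℝ) ≤ 5 * (l * ll) := Nat.floor_le (by positivity)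
  have hP₁ge : 4 * (l * ll) ≤ P₁ := by
    have := Nat.lt_floor_add_one (5 * (l * ll))
    rw [← hP₁] at this
    linarith
  have hP₁r : (0 : ℝ) < P₁ := by linarith
  have hP₁X : X₁ ≤ P₁ := by
    have : (X₁ : ℝ) ≤ P₁ := by nlinarith
    exact_mod_cast this
  have hlogP₁ : Real.log P₁ ≤ 2 * ll := by
    have h1 : Real.log P₁ ≤ Real.log (l ^ 2) := Real.log_le_log hP₁r (hP₁le.trans a3)
    rw [Real.log_pow] at h1
    push_cast at h1
    exact h1
  have hlogP₁0 : 0 < Real.log P₁ := Real.log_pos (by linarith)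
  have hE₁ : 1 ≤ EE X P₁ := by
    rw [EE, ← hl, le_div_iff₀ (by positivity), one_mul]
    calc Real.log P₁ * l ≤ 2 * ll * l := by gcongr
      _ ≤ 4 * (l * ll) := by nlinarith
      _ ≤ P₁ := hP₁ge
  have hlower := hlow X P₁ hXX₁ hP₁X (by
    rw [← hl]
    refine le_trans ?_ a6
    gcongr)
  rw [min_eq_left hE₁, one_mul] at hlower
  -- `P₂`
  set P₂ := ⌊c' * (l * ll)⌋₊ with hP₂
  have hP₂le : (P₂ : ℝ) ≤ c' * (l * ll) := Nat.floor_le (by positivity)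
  have hP₂lt : c' * (l * ll) < P₂ + 1 := Nat.lt_floor_add_one _
  have hP₂ge : c' / 2 * (l * ll) ≤ P₂ := by linarith
  have hP₂X : X₂ ≤ P₂ := by
    have : (X₂ : ℝ) < P₂ + 1 := by linarith
    have h2 : X₂ < P₂ + 1 := by exact_mod_cast this
    omega
  have hP₂1 : (1 : ℝ) < P₂ := by linarith
  have hlogP₂ : ll / 2 ≤ Real.log P₂ := by
    have h1 : Real.log (√l) ≤ Real.log P₂ :=
      Real.log_le_log (Real.sqrt_pos.mpr hl0) (a5.trans hP₂ge)
    rw [Real.log_sqrt hl0.le] at h1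
    exact h1
  have hE₂ : EE X P₂ ≤ 2 * c' := by
    rw [EE, ← hl, div_le_iff₀ (by have : 0 < Real.log P₂ := Real.log_pos hP₂1; positivity)]
    calc (P₂ : ℝ) ≤ c' * (l * ll) := hP₂le
      _ = 2 * c' * (ll / 2 * l) := by ring
      _ ≤ 2 * c' * (Real.log P₂ * l) := by gcongr
  have hupper := hup X P₂ hXX₂ hP₂X
  have hupper' : (#{a ∈ Ioc 0 X | 1 ≤ #(Rp a P₂)} : ℝ) ≤ c₁ / 2 * X := by
    refine hupper.trans ?_
    calc C₂ * (EE X P₂ * X) ≤ C₂ * (2 * c' * X) := by gcongr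
      _ = c₁ / 2 * X := by rw [hc']; field_simp; ring
  set G₁ := {a ∈ Ioc 0 X | a ≡ 8 [MOD M] ∧ 1 ≤ #(Rp a P₁) ∧ c₁ * EE X P₁ ≤ #(Rp a P₁)} with hG₁
  set B := {a ∈ Ioc 0 X | 1 ≤ #(Rp a P₂)} with hB
  have hcard : (#G₁ : ℝ) ≤ #(G₁ \ B) + #B := by
    have h1 : #G₁ ≤ #(G₁ \ B) + #B := by
      have := card_le_card_sdiff_add_card (s := G₁) (t := B)
      omega
    exact_mod_cast h1
  have h1 : c₁ / 2 * X ≤ #(G₁ \ B) := by
    have : c₁ * (X : ℝ) ≤ #G₁ := hlower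
    linarith
  refine h1.trans ?_
  have hfin : ({a : ℕ | 0 < a ∧ a ≤ X ∧ a ≡ 8 [MOD M] ∧
      (∃ p : ℕ, p.Prime ∧ (a * p ^ 2 - 1).Prime ∧ (p : ℝ) ≤ 5 * (l * ll)) ∧
      (∀ p : ℕ, p.Prime → (a * p ^ 2 - 1).Prime → c' * (l * ll) ≤ p)}).Finite :=
    (Set.finite_Iic X).subset fun a ha => ha.2.1
  have hsub : ((G₁ \ B : Finset ℕ) : Set ℕ) ⊆ {a : ℕ | 0 < a ∧ a ≤ X ∧ a ≡ 8 [MOD M] ∧
      (∃ p : ℕ, p.Prime ∧ (a * p ^ 2 - 1).Prime ∧ (p : ℝ) ≤ 5 * (l * ll)) ∧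
      (∀ p : ℕ, p.Prime → (a * p ^ 2 - 1).Prime → c' * (l * ll) ≤ p)} := by
    intro a ha
    rw [mem_coe, Finset.mem_sdiff, hG₁, mem_filter, mem_Ioc] at ha
    obtain ⟨⟨⟨ha0, haX⟩, ha8, haR, _⟩, haB⟩ := ha
    refine ⟨ha0, haX, ha8, ?_, ?_⟩
    · obtain ⟨p, hp⟩ := Finset.card_pos.mp (by omega : 0 < #(Rp a P₁))
      rw [Rp, mem_filter, mem_Ioc] at hp
      refine ⟨p, hp.2.1, hp.2.2, le_trans ?_ hP₁le⟩
      exact_mod_cast hp.1.2
    · intro p hp hap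
      by_contra hlt
      push Not at hlt
      apply haB
      rw [hB, mem_filter, mem_Ioc]
      refine ⟨⟨ha0, haX⟩, Finset.card_pos.mpr ⟨p, ?_⟩⟩
      rw [Rp, mem_filter, mem_Ioc]
      refine ⟨⟨hp.pos, ?_⟩, hp, hap⟩
      have : (p : ℝ) < P₂ + 1 := by linarith
      have h2 : p < P₂ + 1 := by exact_mod_cast this
      omega
  have h2 := Set.ncard_le_ncard hsub hfin
  rw [Set.ncard_coe_finset] at h2
  exact_mod_cast h2

end Pool.Agent.helper85.SQ
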