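import Pool.Agent.helper85.SQ.RAW
import Pool.Agent.helper21.SQ.BS
import Pool.Agent.helper2.SQ.T1

/-!
# Primes to moduli `p²` on average, explicit parameters
-/

namespace Pool.Agent.helper85.SQ

open Finset Real ArithmeticFunction Pool.Agent.helper85.BVP

theorem bv_sq (M b : ℕ) (hM : 0 < M) (hb : Nat.Coprime b M) : ∃ L₀ : ℝ, ∀ (x : ℕ) (L : ℝ),
    L = 1 + Real.log x → L₀ ≤ L → ∀ Q : ℕ, L ^ 9 ≤ Q → (Q : ℝ) ^ 3 * L ^ 20 ≤ √x →
    ∀ P : Finset ℕ, (∀ p ∈ P, p.Prime ∧ ¬ p ∣ M ∧ p ≤ Q ∧ Q ≤ 2 * p) →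
    ∀ c : ℕ → ℕ, (∀ p ∈ P, Nat.Coprime (c p) (p ^ 2)) →
    ∑ p ∈ P, |∑ n ∈ Ioc 0 x, vonMangoldt n * km M b (p ^ 2) (c p) n| ≤ x / (Q * L ^ 2) := by
  refine ⟨10000, ?_⟩
  intro x L hLdef hL Q hQ1 hQ2 P hP c hc
  have hL0 : 0 < L := by linarith
  have hL1 : 1 ≤ L := by linarith
  set s := √(x : ℝ) with hs
  have hx0 : (0 : ℝ) ≤ x := Nat.cast_nonneg x
  have hs2 : s ^ 2 = x := Real.sq_sqrt hx0
  have hQpos : (0 : ℝ) < Q := lt_of_lt_of_le (by positivity) hQ1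
  have hQ0 : 1 ≤ Q := by
    have : (1 : ℝ) ≤ Q := (one_le_pow₀ hL1).trans hQ1
    exact_mod_cast this
  have hs0 : 0 < s := lt_of_lt_of_le (by positivity) hQ2
  have hxpos : (0 : ℝ) < x := by rw [← hs2]; positivity
  have hxn : 1 ≤ x := by exact_mod_cast hxpos
  set U := ⌈(Q : ℝ) ^ 2 * L ^ 16⌉₊ with hU
  have hQL1 : 1 ≤ (Q : ℝ) ^ 2 * L ^ 16 := by
    have h1 : (1 : ℝ) ≤ Q := by exact_mod_cast hQ0
    have h2 : (1 : ℝ) ≤ (Q : ℝ) ^ 2 := one_le_pow₀ h1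
    have h3 : (1 : ℝ) ≤ L ^ 16 := one_le_pow₀ hL1
    nlinarith
  have hU1 : (Q : ℝ) ^ 2 * L ^ 16 ≤ U := Nat.le_ceil _
  have hU2 : (U : ℝ) ≤ 2 * (Q ^ 2 * L ^ 16) := by
    have h1 := (Nat.ceil_lt_add_one (by positivity : 0 ≤ (Q : ℝ) ^ 2 * L ^ 16)).le
    rw [← hU] at h1
    linarith
  have hU0 : 1 ≤ U := by
    have : (1 : ℝ) ≤ U := hQL1.trans hU1
    exact_mod_cast this
  have hmain := raw P (fun p n => km M b (p ^ 2) (c p) n) (40 / (Q : ℝ) ^ 2) ((Q : ℝ) ^ 4) 3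
    (by positivity) (by positivity) ?_ ?_ ?_ x U hU0 hxn
  · rw [← hLdef, ← hs] at hmain
    refine hmain.trans ?_
    have hcard : (#P : ℝ) ≤ Q := by
      have : P ⊆ Ioc 0 Q := by
        intro q hq
        rw [mem_Ioc]
        exact ⟨(hP q hq).1.pos, (hP q hq).2.2.1⟩
      have h3 := card_le_card this
      rw [Nat.card_Ioc, Nat.sub_zero] at h3
      exact_mod_cast h3
    have hsq4 : √((Q : ℝ) ^ 4) = Q ^ 2 := by
      rw [show (Q : ℝ) ^ 4 = (Q ^ 2) ^ 2 by ring]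
      exact Real.sqrt_sq (by positivity)
    rw [hsq4]
    have hsU : Q * L ^ 8 ≤ √(U : ℝ) := by
      apply Real.le_sqrt_of_sq_le
      calc ((Q : ℝ) * L ^ 8) ^ 2 = (Q : ℝ) ^ 2 * L ^ 16 := by ring
        _ ≤ (U : ℝ) := hU1
    have hsU0 : 0 < √(U : ℝ) := lt_of_lt_of_le (by positivity) hsU
    -- type I
    have e1 : (#P : ℝ) * ((2 + 4 * 3) * (U : ℝ) ^ 2 * L) ≤ (1 / 4) * (x / (Q * L ^ 2)) := by
      have h1 : (U : ℝ) ^ 2 ≤ 4 * (Q ^ 4 * L ^ 32) := by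
        calc (U : ℝ) ^ 2 ≤ (2 * (Q ^ 2 * L ^ 16)) ^ 2 := by gcongr
          _ = _ := by ring
      have h2 : (#P : ℝ) * ((2 + 4 * 3) * (U : ℝ) ^ 2 * L) ≤ Q * (14 * (4 * (Q ^ 4 * L ^ 32)) * L) := by
        have : (2 + 4 * 3 : ℝ) = 14 := by norm_num
        rw [this]
        gcongr
      refine h2.trans ?_
      rw [← mul_div_assoc, le_div_iff₀ (by positivity)]
      calc Q * (14 * (4 * ((Q : ℝ) ^ 4 * L ^ 32)) * L) * (Q * L ^ 2) = 56 * (Q ^ 6 * L ^ 35) := by ring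
        _ ≤ (1 / 4) * (L * (Q ^ 6 * L ^ 35)) := by
            have : 0 ≤ (Q : ℝ) ^ 6 * L ^ 35 := by positivity
            nlinarith
        _ = (1 / 4) * (Q ^ 6 * L ^ 36) := by ring
        _ ≤ (1 / 4) * (Q ^ 6 * L ^ 40) := by
            have h4 : L ^ 36 ≤ L ^ 40 := pow_le_pow_right₀ hL1 (by norm_num)
            have h5 : 0 ≤ (Q : ℝ) ^ 6 := by positivity
            nlinarith [mul_le_mul_of_nonneg_left h4 h5]
        _ = (1 / 4) * (Q ^ 3 * L ^ 20) ^ 2 := by ring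
        _ ≤ (1 / 4) * s ^ 2 := by gcongr
        _ = (1 / 4) * x := by rw [hs2]
    -- type II
    have e2 : 12 * L ^ 5 * (40 / (Q : ℝ) ^ 2 * ((x : ℝ) + 2 * Q ^ 2 * x / √U + Q ^ 4 * s))
        ≤ (3 / 4) * (x / (Q * L ^ 2)) := by
      have h1 : 12 * L ^ 5 * (40 / (Q : ℝ) ^ 2 * x) ≤ (1 / 4) * (x / (Q * L ^ 2)) := by
        rw [← mul_div_assoc, le_div_iff₀ (by positivity)]
        have : 12 * L ^ 5 * (40 / (Q : ℝ) ^ 2 * x) * (Q * L ^ 2) = 480 * L ^ 7 / Q * x := by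
          field_simp
          ring
        rw [this]
        have h3 : 480 * L ^ 7 / (Q : ℝ) ≤ 1 / 4 := by
          rw [div_le_iff₀ hQpos]
          have h4 : 1920 * L ^ 7 ≤ L ^ 9 := by
            have : L ^ 9 = L ^ 2 * L ^ 7 := by ring
            rw [this]
            have h5 : (1920 : ℝ) ≤ L ^ 2 := by nlinarith
            gcongr
          linarith
        nlinarith
      have h2 : 12 * L ^ 5 * (40 / (Q : ℝ) ^ 2 * (2 * Q ^ 2 * x / √U)) ≤ (1 / 4) * (x / (Q * L ^ 2)) := by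
        have h3 : 2 * (Q : ℝ) ^ 2 * x / √U ≤ 2 * Q ^ 2 * x / (Q * L ^ 8) := by gcongr
        calc 12 * L ^ 5 * (40 / (Q : ℝ) ^ 2 * (2 * Q ^ 2 * x / √U))
            ≤ 12 * L ^ 5 * (40 / (Q : ℝ) ^ 2 * (2 * Q ^ 2 * x / (Q * L ^ 8))) := by gcongr
          _ = (960 / L) * (x / (Q * L ^ 2)) := by field_simp; ring
          _ ≤ (1 / 4) * (x / (Q * L ^ 2)) := by
              refine mul_le_mul_of_nonneg_right ?_ (by positivity)
              rw [div_le_iff₀ hL0]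
              linarith
      have h3 : 12 * L ^ 5 * (40 / (Q : ℝ) ^ 2 * (Q ^ 4 * s)) ≤ (1 / 4) * (x / (Q * L ^ 2)) := by
        rw [← mul_div_assoc, le_div_iff₀ (by positivity)]
        calc 12 * L ^ 5 * (40 / (Q : ℝ) ^ 2 * (Q ^ 4 * s)) * (Q * L ^ 2)
            = (480 * L ^ 7) * Q ^ 3 * s := by field_simp; ring
          _ ≤ (1 / 4 * L ^ 20) * Q ^ 3 * s := by
              have h4 : 480 * L ^ 7 ≤ 1 / 4 * L ^ 20 := by
                have : L ^ 20 = L ^ 13 * L ^ 7 := by ring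
                rw [this]
                have h5 : L ≤ L ^ 13 := by
                  calc L = L ^ 1 := (pow_one L).symm
                    _ ≤ L ^ 13 := pow_le_pow_right₀ hL1 (by norm_num)
                have h6 : 0 < L ^ 7 := by positivity
                nlinarith
              gcongr
          _ = 1 / 4 * (Q ^ 3 * L ^ 20) * s := by ring
          _ ≤ 1 / 4 * s * s := by gcongr
          _ = 1 / 4 * x := by rw [← hs2]; ring
      have e : 12 * L ^ 5 * (40 / (Q : ℝ) ^ 2 * ((x : ℝ) + 2 * Q ^ 2 * x / √U + Q ^ 4 * s))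
          = 12 * L ^ 5 * (40 / (Q : ℝ) ^ 2 * x) + 12 * L ^ 5 * (40 / (Q : ℝ) ^ 2 * (2 * Q ^ 2 * x / √U))
            + 12 * L ^ 5 * (40 / (Q : ℝ) ^ 2 * (Q ^ 4 * s)) := by ring
      rw [e]
      linarith
    linarith
  · intro α β M₁ M₂ N₁ N₂ hM12 hN12
    have h := bilinear_sq M b hM hb P (fun p hp => (hP p hp).1) Q hQ0 (fun p hp => (hP p hp).2.2.1)
      (fun p hp => (hP p hp).2.2.2) c hc M₁ (M₂ - M₁) N₁ (N₂ - N₁) (Ioc M₁ M₂) (Ioc N₁ N₂)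
      (by rw [Nat.add_sub_cancel' hM12]) (by rw [Nat.add_sub_cancel' hN12]) α β
    exact h
  · intro p hp n
    exact abs_km_le M b p (c p) (hP p hp).1 (hc p hp) n
  · intro p hp d y
    exact sum_km_mul M b p (c p) hM (hP p hp).1 (hP p hp).2.1 hb (hc p hp) d y

end Pool.Agent.helper85.SQ
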