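import Pool.Agent.helper85.SQ.CL
import Pool.Agent.helper97.SQ.PM
import Pool.Agent.helper19.SQ.FS
import Pool.Agent.helper9.SQ.FL
import Pool.Agent.helper96.SQ.FC

/-!
# First moment
-/

namespace Pool.Agent.helper85.SQ

open Finset Real ArithmeticFunction Filter Asymptotics

/-- parameters for the first moment. -/
lemma fm_params (K : ℝ) : ∃ X₀ : ℕ, ∀ X : ℕ, X₀ ≤ X → K ≤ Real.log X ∧
    K * Real.log X ^ 3 ≤ √(X : ℝ) := by
  have h1 : ∀ᶠ x : ℝ in atTop, K ≤ Real.log x := Real.tendsto_log_atTop.eventually_ge_atTop K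
  have h2 : ∀ᶠ x : ℝ in atTop, K * Real.log x ^ 3 ≤ √x := by
    have h3 := (Real.isLittleO_pow_log_id_atTop (n := 6)).bound (c := 1 / (|K| + 1) ^ 2) (by positivity)
    filter_upwards [h3, eventually_ge_atTop 1] with x hx hx1
    have hl := Real.log_nonneg hx1
    rw [id, Real.norm_of_nonneg (by linarith : (0 : ℝ) ≤ x), Real.norm_of_nonneg (by positivity)] at hx
    apply Real.le_sqrt_of_sq_le
    have h4 : K ^ 2 ≤ (|K| + 1) ^ 2 := by
      rw [← sq_abs]
      exact pow_le_pow_left₀ (abs_nonneg K) (by linarith) 2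
    calc (K * Real.log x ^ 3) ^ 2 = K ^ 2 * Real.log x ^ 6 := by ring
      _ ≤ (|K| + 1) ^ 2 * (1 / (|K| + 1) ^ 2 * x) := by gcongr
      _ = x := by
          have : (|K| + 1) ^ 2 ≠ 0 := by positivity
          field_simp
  have h3 := (tendsto_natCast_atTop_atTop (R := ℝ)).eventually (h1.and h2)
  obtain ⟨B₀, hB₀⟩ := eventually_atTop.mp h3
  exact ⟨B₀, fun B hB => hB₀ B hB⟩

theorem first_moment (M u : ℕ) (hM : 0 < M) (hu : Nat.Coprime u M)
    (h8 : Nat.Coprime (8 * u ^ 2 - 1) M) : ∃ (c : ℝ) (X₀ : ℕ), 0 < c ∧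
    ∀ X P : ℕ, X₀ ≤ X → X₀ ≤ P → (P : ℝ) * Real.log X ^ 12 ≤ (X : ℝ) ^ (1 / 4 : ℝ) →
      c * (X * EE X P) ≤ ∑ p ∈ PP M u P,
        (#{a ∈ Ioc 0 X | a ≡ 8 [MOD M] ∧ (a * p ^ 2 - 1).Prime} : ℝ) := by
  classical
  obtain ⟨c₁, P₀, hc₁, hPP⟩ := card_PP M u hM hu
  obtain ⟨N₁, hsm⟩ := psi_small M (8 * u ^ 2 - 1) hM h8
  obtain ⟨N₂, hla⟩ := psi_large_of bv_sq M (8 * u ^ 2 - 1) hM h8
  set φ : ℝ := (Nat.totient M : ℝ) with hφ
  have hφ1 : 1 ≤ φ := by
    rw [hφ]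
    exact_mod_cast Nat.totient_pos.mpr hM
  set K : ℝ := 1000 * φ / c₁ + 1000 with hK
  have hK1 : 1000 ≤ K := by
    have : 0 ≤ 1000 * φ / c₁ := by positivity
    linarith
  obtain ⟨X₁, hX₁⟩ := fm_params K
  refine ⟨c₁ / (96 * φ), max (max P₀ (2 * M + 8)) (max (max N₁ N₂) X₁), by positivity, ?_⟩
  intro X P hX hP hPX
  have hPP0 : P₀ ≤ P := le_trans (le_trans (le_max_left _ _) (le_max_left _ _)) hP
  have hPM : 2 * M + 8 ≤ P := le_trans (le_trans (le_max_right _ _) (le_max_left _ _)) hP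
  have hXN₁ : N₁ ≤ X := le_trans (le_trans (le_trans (le_max_left _ _) (le_max_left _ _))
    (le_max_right _ _)) hX
  have hXN₂ : N₂ ≤ X := le_trans (le_trans (le_trans (le_max_right _ _) (le_max_left _ _))
    (le_max_right _ _)) hX
  obtain ⟨hlK, hlX3⟩ := hX₁ X (le_trans (le_trans (le_max_right _ _) (le_max_right _ _)) hX)
  set lX := Real.log X with hlX
  have hlX1 : 1000 ≤ lX := hK1.trans hlK
  have hlX0 : 0 < lX := by linarith
  have hXpos : 0 < X := by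
    rcases Nat.eq_zero_or_pos X with h | h
    · rw [hlX, h] at hlX1
      norm_num at hlX1
    · exact h
  have hXr : (0 : ℝ) < X := by exact_mod_cast hXpos
  have hX1 : (1 : ℝ) ≤ X := by exact_mod_cast hXpos
  have hPr8 : (8 : ℝ) ≤ P := by exact_mod_cast (by omega : 8 ≤ P)
  have hPr : (0 : ℝ) < P := by linarith
  -- `P ≤ X^{1/4}`
  have hX4 : ((X : ℝ) ^ (1 / 4 : ℝ)) ^ 4 = X := by
    rw [← Real.rpow_natCast, ← Real.rpow_mul hXr.le]
    norm_num
  set Y := (X : ℝ) ^ (1 / 4 : ℝ) with hY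
  have hY0 : 0 < Y := Real.rpow_pos_of_pos hXr _
  have hsX : √(X : ℝ) = Y ^ 2 := by
    rw [← hX4, show Y ^ 4 = (Y ^ 2) ^ 2 by ring]
    exact Real.sqrt_sq (by positivity)
  have hPY : (P : ℝ) ≤ Y := by
    have : (1 : ℝ) ≤ lX ^ 12 := one_le_pow₀ (by linarith)
    nlinarith
  have hlP0 : 0 < Real.log P := Real.log_pos (by linarith)
  have hlP : Real.log P ≤ lX / 4 := by
    have h1 := Real.log_le_log hPr hPY
    rw [hY, Real.log_rpow hXr] at h1
    rw [hlX]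
    linarith
  -- `N`
  set N := X * (P ^ 2 / 4) with hN
  have hdiv1 : 4 * (P ^ 2 / 4) ≤ P ^ 2 := Nat.mul_div_le _ _
  have hdiv2 : P ^ 2 ≤ 8 * (P ^ 2 / 4) := by
    have h1 : P ^ 2 < 4 * (P ^ 2 / 4) + 4 := by
      have := Nat.div_add_mod (P ^ 2) 4
      have := Nat.mod_lt (P ^ 2) (by norm_num : 0 < 4)
      omega
    have h2 : 64 ≤ P ^ 2 := by
      calc 64 = 8 ^ 2 := by norm_num
        _ ≤ P ^ 2 := Nat.pow_le_pow_left (by omega) 2
    omega
  have hq1 : 1 ≤ P ^ 2 / 4 := by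
    have h2 : 64 ≤ P ^ 2 := by
      calc 64 = 8 ^ 2 := by norm_num
        _ ≤ P ^ 2 := Nat.pow_le_pow_left (by omega) 2
    omega
  have hXN : X ≤ N := by
    rw [hN]
    exact Nat.le_mul_of_pos_right X hq1
  have hNr : (N : ℝ) = X * ((P ^ 2 / 4 : ℕ) : ℝ) := by rw [hN]; push_cast; ring
  have hd1 : 4 * ((P ^ 2 / 4 : ℕ) : ℝ) ≤ (P : ℝ) ^ 2 := by exact_mod_cast hdiv1
  have hd2 : (P : ℝ) ^ 2 ≤ 8 * ((P ^ 2 / 4 : ℕ) : ℝ) := by exact_mod_cast hdiv2
  have hNlo : (X : ℝ) * P ^ 2 / 8 ≤ N := by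
    rw [hNr]
    nlinarith
  have hNhi : (N : ℝ) ≤ X * P ^ 2 := by
    rw [hNr]
    have : ((P ^ 2 / 4 : ℕ) : ℝ) ≤ (P : ℝ) ^ 2 := by
      have : (0 : ℝ) ≤ ((P ^ 2 / 4 : ℕ) : ℝ) := Nat.cast_nonneg _
      linarith
    gcongr
  have hNpos : (0 : ℝ) < N := lt_of_lt_of_le (by positivity) hNlo
  set l := Real.log N with hl
  have hl1 : lX ≤ l := Real.log_le_log hXr (by exact_mod_cast hXN)
  have hl2 : l ≤ 3 / 2 * lX := by
    have h1 := Real.log_le_log hNpos hNhi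
    rw [Real.log_mul (by positivity) (by positivity), Real.log_pow] at h1
    push_cast at h1
    linarith
  have hl0 : 0 < l := by linarith
  have hsN : P * Y ^ 2 / 3 ≤ √(N : ℝ) := by
    apply Real.le_sqrt_of_sq_le
    refine le_trans ?_ hNlo
    rw [← hX4]
    have : (P * Y ^ 2 / 3) ^ 2 = Y ^ 4 * (P : ℝ) ^ 2 / 9 := by ring
    rw [this]
    have : 0 ≤ Y ^ 4 * (P : ℝ) ^ 2 := by positivity
    linarith
  have hPPmem : ∀ p ∈ PP M u P, p.Prime ∧ ¬ p ∣ M ∧ p ≤ P ∧ P ≤ 2 * p := by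
    intro p hp
    rw [PP, mem_filter, mem_Ioc] at hp
    refine ⟨hp.2.1, ?_, hp.1.2, by omega⟩
    intro h
    have := Nat.le_of_dvd hM h
    omega
  set S := ∑ p ∈ PP M u P, (N : ℝ) / (2 * φ * (p : ℝ) ^ 2) with hS
  have hS1 : c₁ / (2 * φ) * (N / (P * Real.log P)) ≤ S := by
    have h1 : ∀ p ∈ PP M u P, (N : ℝ) / (2 * φ * (P : ℝ) ^ 2) ≤ N / (2 * φ * (p : ℝ) ^ 2) := by
      intro p hp
      obtain ⟨hp1, _, hp3, _⟩ := hPPmem p hp
      have hp0 : (0 : ℝ) < p := by exact_mod_cast hp1.pos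
      have hpP : (p : ℝ) ≤ P := by exact_mod_cast hp3
      gcongr
    have h2 := sum_le_sum h1
    rw [sum_const, nsmul_eq_mul] at h2
    refine le_trans ?_ h2
    calc c₁ / (2 * φ) * (N / (P * Real.log P)) = c₁ * (P / Real.log P) * (N / (2 * φ * (P : ℝ) ^ 2)) := by
          field_simp
      _ ≤ #(PP M u P) * (N / (2 * φ * (P : ℝ) ^ 2)) := by
          refine mul_le_mul_of_nonneg_right (hPP P hPP0) (by positivity)
  set Ψ := ∑ p ∈ PP M u P, ∑ n ∈ Ioc 0 N with n ≡ 8 * u ^ 2 - 1 [MOD M] ∧ n ≡ p ^ 2 - 1 [MOD p ^ 2],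
    vonMangoldt n with hΨ
  have hclaim : c₁ / (4 * φ) * (N / (P * Real.log P)) ≤ Ψ := by
    have hpos : 0 ≤ (N : ℝ) / (P * Real.log P) := by positivity
    by_cases hsmall : (P : ℝ) ≤ l ^ 12
    · have h1 : S ≤ Ψ := by
        rw [hS, hΨ]
        refine sum_le_sum fun p hp => ?_
        obtain ⟨hp1, hp2, hp3, _⟩ := hPPmem p hp
        refine hsm N (hXN₁.trans hXN) p hp1 hp2 ?_
        have : (p : ℝ) ≤ P := by exact_mod_cast hp3
        linarith
      refine le_trans ?_ (hS1.trans h1)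
      refine mul_le_mul_of_nonneg_right ?_ hpos
      apply div_le_div_of_nonneg_left hc₁.le (by positivity) (by linarith)
    · push Not at hsmall
      have h1 := hla N (hXN₂.trans hXN) P ?_ ?_ (PP M u P) hPPmem
      · rw [← hl] at h1
        rw [← hS, ← hΨ] at h1
        have h2 : (N : ℝ) / (P * l ^ 2) ≤ c₁ / (4 * φ) * (N / (P * Real.log P)) := by
          have h3 : 4 * φ / c₁ ≤ l := by
            have : 4 * φ / c₁ ≤ 1000 * φ / c₁ := by gcongr; norm_num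
            linarith
          have h4 : Real.log P ≤ l := by linarith
          rw [div_le_iff₀ (by positivity)]
          have h5 : c₁ / (4 * φ) * (N / (P * Real.log P)) * (P * l ^ 2)
              = N * (c₁ / (4 * φ) * l * (l / Real.log P)) := by
            field_simp
          rw [h5]
          have h6 : 1 ≤ c₁ / (4 * φ) * l := by
            calc (1 : ℝ) = c₁ / (4 * φ) * (4 * φ / c₁) := by field_simp
              _ ≤ _ := by gcongr
          have h7 : 1 ≤ l / Real.log P := by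
            rw [le_div_iff₀ hlP0]
            linarith
          have h8 : 1 ≤ c₁ / (4 * φ) * l * (l / Real.log P) := one_le_mul_of_one_le_of_one_le h6 h7
          nlinarith
        have h3 : c₁ / (2 * φ) * (N / (P * Real.log P)) = 2 * (c₁ / (4 * φ) * (N / (P * Real.log P))) := by
          field_simp
          ring
        linarith
      · calc l ^ 10 ≤ l ^ 12 := pow_le_pow_right₀ (by linarith) (by norm_num)
          _ ≤ P := hsmall.le
      · rw [← hl]
        refine le_trans ?_ hsN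
        have h3 : (P : ℝ) ^ 2 * lX ^ 24 ≤ Y ^ 2 := by
          calc (P : ℝ) ^ 2 * lX ^ 24 = (P * lX ^ 12) ^ 2 := by ring
            _ ≤ Y ^ 2 := by gcongr
        have h4 : 3 * l ^ 21 ≤ lX ^ 24 := by
          calc 3 * l ^ 21 ≤ 3 * (3 / 2 * lX) ^ 21 := by gcongr
            _ = (3 * (3 / 2) ^ 21) * lX ^ 21 := by ring
            _ ≤ lX ^ 3 * lX ^ 21 := by
                have : (3 : ℝ) * (3 / 2) ^ 21 ≤ 1000 ^ 3 := by norm_num
                have : (1000 : ℝ) ^ 3 ≤ lX ^ 3 := by gcongr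
                gcongr
                linarith
            _ = lX ^ 24 := by ring
        rw [le_div_iff₀ (by norm_num)]
        calc (P : ℝ) ^ 3 * l ^ 21 * 3 = P * (P ^ 2 * (3 * l ^ 21)) := by ring
          _ ≤ P * (P ^ 2 * lX ^ 24) := by gcongr
          _ ≤ P * Y ^ 2 := by gcongr
  have hcount := count_ge M u hM hu X P N hXpos (by omega) hN (by
    have : (2 : ℝ) ≤ N := by
      have h1 : (1 : ℝ) ≤ X := hX1
      nlinarith
    exact_mod_cast this)
  rw [← hΨ, ← hl] at hcount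
  set R := ∑ p ∈ PP M u P, (#{a ∈ Ioc 0 X | a ≡ 8 [MOD M] ∧ (a * p ^ 2 - 1).Prime} : ℝ) with hR
  -- error term
  have herr : 10 * (√(N : ℝ) * l ^ 2) ≤ c₁ / (8 * φ) * (N / (P * Real.log P)) := by
    have hs0 : 0 < √(N : ℝ) := Real.sqrt_pos.mpr hNpos
    have hsq : √(N : ℝ) * √(N : ℝ) = N := Real.mul_self_sqrt hNpos.le
    have h1 : 80 * φ / c₁ * (P * Real.log P) * l ^ 2 ≤ √(N : ℝ) := by
      refine le_trans ?_ hsN
      rw [le_div_iff₀ (by norm_num)]
      have h2 : l ^ 2 ≤ (3 / 2 * lX) ^ 2 := by gcongr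
      have h3 : K * lX ^ 3 ≤ Y ^ 2 := by rw [← hsX]; exact hlX3
      have h4 : 1000 * φ / c₁ ≤ K := by linarith
      calc 80 * φ / c₁ * (P * Real.log P) * l ^ 2 * 3
          ≤ 80 * φ / c₁ * (P * (lX / 4)) * (3 / 2 * lX) ^ 2 * 3 := by gcongr
        _ = P * ((135 * φ / c₁) * lX ^ 3) := by ring
        _ ≤ P * ((1000 * φ / c₁) * lX ^ 3) := by gcongr; norm_num
        _ ≤ P * (K * lX ^ 3) := by gcongr
        _ ≤ P * Y ^ 2 := by gcongr
    have h2 : 10 * (√(N : ℝ) * l ^ 2) * (P * Real.log P) ≤ c₁ / (8 * φ) * N := by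
      calc 10 * (√(N : ℝ) * l ^ 2) * (P * Real.log P)
          = c₁ / (8 * φ) * (√(N : ℝ) * (80 * φ / c₁ * (P * Real.log P) * l ^ 2)) := by
            field_simp
            ring
        _ ≤ c₁ / (8 * φ) * (√(N : ℝ) * √(N : ℝ)) := by gcongr
        _ = c₁ / (8 * φ) * N := by rw [hsq]
    rw [← mul_div_assoc, le_div_iff₀ (by positivity)]
    exact h2
  have h1 : c₁ / (8 * φ) * (N / (P * Real.log P)) ≤ l * R := by
    have e : c₁ / (4 * φ) * (N / (P * Real.log P)) = 2 * (c₁ / (8 * φ) * (N / (P * Real.log P))) := by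
      field_simp
      ring
    linarith
  have h2 : c₁ / (96 * φ) * (X * EE X P) * l ≤ R * l := by
    rw [mul_comm R]
    refine le_trans ?_ h1
    calc c₁ / (96 * φ) * (X * EE X P) * l ≤ c₁ / (96 * φ) * (X * EE X P) * (3 / 2 * lX) := by
          have : 0 ≤ EE X P := by
            rw [EE, ← hlX]
            positivity
          gcongr
      _ = c₁ / (8 * φ) * ((X * P ^ 2 / 8) / (P * Real.log P)) := by
          rw [EE, ← hlX]
          field_simp
          ring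
      _ ≤ c₁ / (8 * φ) * (N / (P * Real.log P)) := by gcongr
  exact le_of_mul_le_mul_right h2 hl0

end Pool.Agent.helper85.SQ
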